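import Pool.Agent.Helper36.SPR.St5
import Pool.Agent.Helper36.SPR.St2
import Pool.Agent.Helper15.AB.M_MT

/-!
# Project SPR3 (MP_343216_nt), module NTB: one block
-/

set_option autoImplicit false

namespace Pool.Agent.Helper15.SPR

open Finset
open Pool.Agent.Helper36.SPR

/-- Mertens on a block -/
theorem mertens_block {C : ℝ} (hM : ∀ y : ℝ, 3 ≤ y →
    |∑ l ∈ (Icc 1 ⌊y⌋₊).filter Nat.Prime, (1 : ℝ) / l - Real.log (Real.log y)| ≤ C)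
    (y A C₁ : ℕ) (hy : 3 ≤ y) (hA : 1 ≤ A) (hC₁ : 1 ≤ C₁) :
    Real.log A - 2 * C ≤ ∑ p ∈ (Ioc (y ^ C₁) (y ^ (C₁ * A))).filter Nat.Prime, (1 : ℝ) / p := by
  have hlohi : y ^ C₁ ≤ y ^ (C₁ * A) := Nat.pow_le_pow_right (by omega) (Nat.le_mul_of_pos_right _ hA)
  have hlo3 : 3 ≤ y ^ C₁ := le_trans hy (Nat.le_self_pow (by omega) y)
  have hhi3 : 3 ≤ y ^ (C₁ * A) := le_trans hlo3 hlohi
  have h1 := hM ((y ^ C₁ : ℕ) : ℝ) (by exact_mod_cast hlo3)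
  have h2 := hM ((y ^ (C₁ * A) : ℕ) : ℝ) (by exact_mod_cast hhi3)
  rw [Nat.floor_natCast] at h1 h2
  have hsplit : ∑ p ∈ (Icc 1 (y ^ (C₁ * A))).filter Nat.Prime, (1 : ℝ) / p
      = ∑ p ∈ (Icc 1 (y ^ C₁)).filter Nat.Prime, (1 : ℝ) / p
        + ∑ p ∈ (Ioc (y ^ C₁) (y ^ (C₁ * A))).filter Nat.Prime, (1 : ℝ) / p := by
    rw [← sum_union]
    · apply sum_congr _ (fun _ _ => rfl)
      ext p
      simp only [mem_filter, mem_union, mem_Icc, mem_Ioc]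
      constructor
      · rintro ⟨⟨h1, h2⟩, h3⟩
        by_cases h : p ≤ y ^ C₁
        · exact Or.inl ⟨⟨h1, h⟩, h3⟩
        · exact Or.inr ⟨⟨by omega, h2⟩, h3⟩
      · rintro (⟨⟨h1, h2⟩, h3⟩ | ⟨⟨h1, h2⟩, h3⟩)
        · exact ⟨⟨h1, by omega⟩, h3⟩
        · exact ⟨⟨by omega, h2⟩, h3⟩
    · rw [disjoint_left]
      intro p hp hp'
      simp only [mem_filter, mem_Icc, mem_Ioc] at hp hp'
      omega
  have hlogy : 0 < Real.log y := Real.log_pos (by exact_mod_cast (by omega : 1 < y))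
  have hC₁' : (0 : ℝ) < C₁ := by exact_mod_cast (by omega : 0 < C₁)
  have hA' : (0 : ℝ) < A := by exact_mod_cast (by omega : 0 < A)
  have e1 : Real.log (Real.log ((y ^ C₁ : ℕ) : ℝ)) = Real.log (C₁ * Real.log y) := by
    rw [Nat.cast_pow, Real.log_pow]
  have e2 : Real.log (Real.log ((y ^ (C₁ * A) : ℕ) : ℝ))
      = Real.log (C₁ * Real.log y) + Real.log A := by
    rw [Nat.cast_pow, Real.log_pow, ← Real.log_mul (by positivity) hA'.ne']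
    congr 1
    push_cast
    ring
  rw [e1] at h1
  rw [e2] at h2
  rw [abs_le] at h1 h2
  linarith [h1.2, h2.1]

/-- NTB: one block. -/
theorem hNTB (hNTS : StNTS) (hQS : StQS) : StNTB := by
  classical
  obtain ⟨CM, hCM, hM⟩ := Pool.Agent.Helper15.AB.hMT
  obtain ⟨CN, hCN, hN⟩ := hNTS
  obtain ⟨CQ, hQ⟩ := hQS
  have hCQ : 0 ≤ CQ := by
    have := hQ ∅ (by simp)
    simpa using this
  obtain ⟨A, hA⟩ : ∃ A : ℕ, Real.exp (2 * CM + CQ + 6) ≤ A ∧ 2 ≤ A := by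
    refine ⟨⌈Real.exp (2 * CM + CQ + 6)⌉₊ + 2, ?_, by omega⟩
    have := Nat.le_ceil (Real.exp (2 * CM + CQ + 6))
    push_cast
    linarith
  obtain ⟨hA1, hA2⟩ := hA
  have hA0 : (0 : ℝ) < A := by exact_mod_cast (by omega : 0 < A)
  have hlogA : 2 * CM + CQ + 6 ≤ Real.log A := by
    rw [Real.le_log_iff_exp_le hA0]
    exact hA1
  obtain ⟨C₁, hC₁⟩ : ∃ C₁ : ℕ, CN * (1 + Real.log A) ≤ C₁ ∧ 4 ≤ C₁ := by
    refine ⟨⌈CN * (1 + Real.log A)⌉₊ + 4, ?_, by omega⟩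
    have := Nat.le_ceil (CN * (1 + Real.log A))
    push_cast
    linarith
  obtain ⟨hC1, hC4⟩ := hC₁
  have hC0 : (0 : ℝ) < C₁ := by exact_mod_cast (by omega : 0 < C₁)
  obtain ⟨y₀, hy₀⟩ := hN A C₁ (by omega) hC4
  refine ⟨A, C₁, hA2, hC4, max y₀ 3, fun y hy => ?_⟩
  have hy1 : y₀ ≤ y := le_trans (le_max_left _ _) hy
  have hy3 : 3 ≤ y := le_trans (le_max_right _ _) hy
  have hlo3 : 3 ≤ y ^ C₁ := le_trans hy3 (Nat.le_self_pow (by omega) y)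
  set I : Finset ℕ := Ioc (y ^ C₁) (y ^ (C₁ * A)) with hI
  have hNS := hy₀ y hy1
  rw [← hI] at hNS
  set Q2 : Finset ℕ := I.filter (fun p : ℕ => p.Prime ∧ (p : ℝ) ^ (1 / 6 : ℝ) < (Sm y (p - 1) : ℝ))
    with hQ2
  have hNS1 : ∑ p ∈ Q2, (1 : ℝ) / (p : ℝ) ≤ 1 := by
    refine le_trans hNS ?_
    rw [div_le_one hC0]
    exact hC1
  set Q1 : Finset ℕ := I.filter (fun p : ℕ => p.Prime ∧
    (orderOf (2 : ZMod p) : ℝ) < (p : ℝ) ^ (1 / 3 : ℝ)) with hQ1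
  have hQ1s : ∑ p ∈ Q1, (1 : ℝ) / (p : ℝ) ≤ CQ := by
    apply hQ
    intro p hp
    rw [hQ1, mem_filter, hI, mem_Ioc] at hp
    exact ⟨hp.2.1, by omega, hp.2.2⟩
  set B : Finset ℕ := I.filter (fun p : ℕ => p.Prime ∧
    ((p : ℝ) ^ (1 / 3 : ℝ) ≤ orderOf (2 : ZMod p) ∧ (Sm y (p - 1) : ℝ) ≤ (p : ℝ) ^ (1 / 6 : ℝ)))
    with hB
  refine ⟨B, ?_, ?_⟩
  · intro p hp
    rw [hB, mem_filter, hI, mem_Ioc] at hp
    exact ⟨hp.2.1, hp.1.1, hp.1.2, hp.2.2.1, hp.2.2.2⟩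
  · have hM1 := mertens_block hM y A C₁ hy3 (by omega) (by omega)
    rw [← hI] at hM1
    have hcov : I.filter Nat.Prime ⊆ B ∪ (Q1 ∪ Q2) := by
      intro p hp
      rw [mem_filter] at hp
      rw [mem_union, mem_union, hB, hQ1, hQ2, mem_filter, mem_filter, mem_filter]
      by_cases h1 : (p : ℝ) ^ (1 / 3 : ℝ) ≤ orderOf (2 : ZMod p)
      · by_cases h2 : (Sm y (p - 1) : ℝ) ≤ (p : ℝ) ^ (1 / 6 : ℝ)
        · exact Or.inl ⟨hp.1, hp.2, h1, h2⟩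
        · exact Or.inr (Or.inr ⟨hp.1, hp.2, not_le.1 h2⟩)
      · exact Or.inr (Or.inl ⟨hp.1, hp.2, not_le.1 h1⟩)
    have hnn : ∀ p : ℕ, (0 : ℝ) ≤ (1 : ℝ) / p := fun p => by positivity
    have hsum1 : ∑ p ∈ I.filter Nat.Prime, (1 : ℝ) / p ≤ ∑ p ∈ B ∪ (Q1 ∪ Q2), (1 : ℝ) / p :=
      sum_le_sum_of_subset_of_nonneg hcov (fun p _ _ => hnn p)
    have hsum2 : ∀ S T : Finset ℕ, ∑ p ∈ S ∪ T, (1 : ℝ) / p
        ≤ ∑ p ∈ S, (1 : ℝ) / p + ∑ p ∈ T, (1 : ℝ) / p := by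
      intro S T
      rw [← sum_union_inter]
      have : 0 ≤ ∑ p ∈ S ∩ T, (1 : ℝ) / p := sum_nonneg (fun p _ => hnn p)
      linarith
    have h3 := hsum2 B (Q1 ∪ Q2)
    have h4 := hsum2 Q1 Q2
    linarith

end Pool.Agent.Helper15.SPR
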